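import Pool.Agent.Y6.M.Stm

set_option autoImplicit false

/-! # Amplitudes and fields -/

open Set Filter Topology
open scoped ComplexConjugate

namespace Pool.Agent.Y419.EM.Ph1

open Pool.Agent.Y6.M

theorem dt3 (a b : C3) : dt a b = a 0 * b 0 + a 1 * b 1 + a 2 * b 2 := by
  unfold dt
  rw [Fin.sum_univ_three]

theorem cr0 (a b : C3) : cr a b 0 = a 1 * b 2 - a 2 * b 1 := rfl

theorem cr1 (a b : C3) : cr a b 1 = a 2 * b 0 - a 0 * b 2 := rfl

theorem cr2 (a b : C3) : cr a b 2 = a 0 * b 1 - a 1 * b 0 := rfl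

theorem cj_apply (a : C3) (j : Fin 3) : cj a j = conj (a j) := rfl

theorem kc_conj (k : Z3) (j : Fin 3) : conj (kc k j) = kc k j := by
  unfold kc
  exact map_intCast _ _

theorem dt_conj (a b : C3) : dt (cj a) (cj b) = conj (dt a b) := by
  rw [dt3, dt3]
  simp only [cj_apply, map_add, map_mul]

theorem kc_neg (k : Z3) : kc (-k) = -kc k := by
  funext j
  unfold kc
  simp

theorem nsq_pos {k : Z3} (hk : k ≠ 0) : 0 < nsq k := by
  unfold nsq
  obtain ⟨j, hj⟩ := Function.ne_iff.1 hk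
  exact Finset.sum_pos' (fun i _ => sq_nonneg _) ⟨j, Finset.mem_univ _, by
    have : k j ≠ 0 := hj
    positivity⟩

theorem len_pos {k : Z3} (hk : k ≠ 0) : 0 < len k := by
  unfold len
  exact Real.sqrt_pos.2 (by exact_mod_cast nsq_pos hk)

theorem kc_self (k : Z3) : dt (kc k) (kc k) = ((nsq k : ℝ) : ℂ) := by
  rw [dt3]
  unfold kc nsq
  rw [Fin.sum_univ_three]
  push_cast
  ring

variable {h : Md → C3}

theorem orth' (fr : Frame h) (k : {k : Z3 // k ≠ 0}) :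
    dt (h (k, false)) (cj (h (k, true))) = 0 := by
  have h1 := congrArg conj (fr.orth k)
  rw [← dt_conj, map_zero] at h1
  rw [← h1, dt3, dt3]
  simp only [cj_apply, Complex.conj_conj]
  ring

theorem perp' (fr : Frame h) (i : Md) : dt (kc i.1.1) (cj (h i)) = 0 := by
  have h1 := congrArg conj (fr.perp i)
  rw [← dt_conj, map_zero] at h1
  rw [← h1, dt3, dt3]
  simp only [cj_apply, kc_conj]

theorem fld_ne (z : Md → ℂ) {k : Z3} (hk : k ≠ 0) (j : Fin 3) :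
    fld h z k j = z (⟨k, hk⟩, true) * h (⟨k, hk⟩, true) j +
      z (⟨k, hk⟩, false) * h (⟨k, hk⟩, false) j := by
  unfold fld
  rw [dif_neg hk]

theorem fld_zero (z : Md → ℂ) : fld h z 0 = 0 := by
  funext j
  unfold fld
  rw [dif_pos rfl]
  rfl

theorem p1 (fr : Frame h) (z : Md → ℂ) (i : Md) : amp h (fld h z) i = z i := by
  obtain ⟨⟨k, hk⟩, s⟩ := i
  unfold amp
  rw [dt3]
  simp only [fld_ne z hk]
  cases s with
  | true =>
    have h1 := fr.unit (⟨k, hk⟩, true)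
    have h2 := orth' fr ⟨k, hk⟩
    rw [dt3] at h1 h2
    linear_combination (z (⟨k, hk⟩, true)) * h1 + (z (⟨k, hk⟩, false)) * h2
  | false =>
    have h1 := fr.unit (⟨k, hk⟩, false)
    have h2 := fr.orth ⟨k, hk⟩
    rw [dt3] at h1 h2
    linear_combination (z (⟨k, hk⟩, false)) * h1 + (z (⟨k, hk⟩, true)) * h2

theorem p2 (fr : Frame h) (V : Coef) (h0 : V 0 = 0) (hd : ∀ k, dt (kc k) (V k) = 0) :
    fld h (amp h V) = V := by
  funext k
  by_cases hk : k = 0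
  · rw [hk, fld_zero, h0]
  · funext j
    rw [fld_ne _ hk, fr.compl ⟨k, hk⟩ (V k) (hd k) j]
    rfl

theorem p3 (fr : Frame h) (V : Coef) (hr : ∀ k j, V (-k) j = conj (V k j)) (i : Md) :
    amp h V (br i) = conj (amp h V i) := by
  unfold amp
  rw [fr.bar, ← dt_conj]
  have e : V (br i).1.1 = cj (V i.1.1) := by
    funext j
    exact hr _ j
  rw [e]

theorem p4 (fr : Frame h) (z : Md → ℂ) (hz : ∀ i, z (br i) = conj (z i)) (k : Z3) (j : Fin 3) :
    fld h z (-k) j = conj (fld h z k j) := by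
  by_cases hk : k = 0
  · rw [hk, neg_zero, fld_zero]
    simp
  · rw [fld_ne z hk, fld_ne z (neg_ne_zero.2 hk), map_add, map_mul, map_mul, ← hz, ← hz]
    have e1 : ∀ s, conj (h (⟨k, hk⟩, s) j) = h (br (⟨k, hk⟩, s)) j := by
      intro s
      rw [fr.bar, cj_apply]
    rw [e1, e1]
    rfl

theorem p5 (fr : Frame h) (z : Md → ℂ) (k : Z3) : dt (kc k) (fld h z k) = 0 := by
  by_cases hk : k = 0
  · rw [hk, fld_zero, dt3]
    simp
  · have h1 := fr.perp (⟨k, hk⟩, true)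
    have h2 := fr.perp (⟨k, hk⟩, false)
    rw [dt3] at h1 h2 ⊢
    simp only [fld_ne z hk]
    linear_combination (z (⟨k, hk⟩, true)) * h1 + (z (⟨k, hk⟩, false)) * h2

theorem sum_sq (v : C3) : ((∑ j, ‖v j‖ ^ 2 : ℝ) : ℂ) = dt v (cj v) := by
  rw [dt3, Fin.sum_univ_three]
  simp only [cj_apply, Complex.mul_conj, Complex.normSq_eq_norm_sq]
  push_cast
  ring

theorem p6 (fr : Frame h) (V : Coef) (k : {k : Z3 // k ≠ 0}) (hd : dt (kc k.1) (V k.1) = 0) :
    ∑ j, ‖V k.1 j‖ ^ 2 = ‖amp h V (k, true)‖ ^ 2 + ‖amp h V (k, false)‖ ^ 2 := by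
  have h0 := fr.compl k (V k.1) hd
  have h1 := fr.unit (k, true)
  have h2 := fr.unit (k, false)
  have h3 := fr.orth k
  have h4 := orth' fr k
  obtain ⟨x, hx⟩ : ∃ x, x = amp h V (k, true) := ⟨_, rfl⟩
  obtain ⟨y, hy⟩ : ∃ y, y = amp h V (k, false) := ⟨_, rfl⟩
  have hx' : dt (V k.1) (cj (h (k, true))) = x := hx.symm
  have hy' : dt (V k.1) (cj (h (k, false))) = y := hy.symm
  rw [hx', hy'] at h0
  rw [← hx, ← hy]
  have e : (((∑ j, ‖V k.1 j‖ ^ 2 : ℝ)) : ℂ) = ((‖x‖ ^ 2 + ‖y‖ ^ 2 : ℝ) : ℂ) := by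
    rw [sum_sq]
    have e1 : ((‖x‖ ^ 2 + ‖y‖ ^ 2 : ℝ) : ℂ) = x * conj x + y * conj y := by
      rw [Complex.mul_conj, Complex.mul_conj, Complex.normSq_eq_norm_sq,
        Complex.normSq_eq_norm_sq]
      push_cast
      ring
    rw [e1, dt3]
    rw [dt3] at h1 h2 h3 h4
    simp only [cj_apply] at h1 h2 h3 h4 ⊢
    rw [h0 0, h0 1, h0 2]
    simp only [map_add, map_mul]
    linear_combination (x * conj x) * h1 + (y * conj y) * h2 + (x * conj y) * h3 +
      (y * conj x) * h4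
  exact_mod_cast e

theorem cross (fr : Frame h) (i : Md) (v : C3) :
    dt (cr (kc i.1.1) v) (cj (h i)) =
      -(Complex.I * ((hs i.2 * len i.1.1 : ℝ) : ℂ)) * dt v (cj (h i)) := by
  have e : ∀ j, conj (cr (kc i.1.1) (h i) j) =
      Complex.I * ((hs i.2 * len i.1.1 : ℝ) : ℂ) * conj (h i j) := by
    intro j
    have h1 := congrArg conj (fr.eig i j)
    rw [map_mul, map_mul, Complex.conj_I, Complex.conj_ofReal] at h1
    linear_combination Complex.I * h1 + (conj (cr (kc i.1.1) (h i) j)) * Complex.I_mul_I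
  have e0 := e 0
  have e1 := e 1
  have e2 := e 2
  rw [cr0, map_sub, map_mul, map_mul, kc_conj, kc_conj] at e0
  rw [cr1, map_sub, map_mul, map_mul, kc_conj, kc_conj] at e1
  rw [cr2, map_sub, map_mul, map_mul, kc_conj, kc_conj] at e2
  rw [dt3, dt3, cr0, cr1, cr2]
  simp only [cj_apply]
  linear_combination -(v 0) * e0 - (v 1) * e1 - (v 2) * e2

theorem p7 (fr : Frame h) (m n : Z3 → ℝ) (V : Coef) (i : Md) :
    dt (Kop m n V i.1.1) (cj (h i)) =
      Complex.I * ((m i.1.1 + hs i.2 * n i.1.1 : ℝ) : ℂ) * amp h V i := by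
  have h1 := cross fr i (V i.1.1)
  have hl : (len i.1.1 : ℂ) ≠ 0 := by
    exact_mod_cast (len_pos i.1.2).ne'
  have e : dt (Kop m n V i.1.1) (cj (h i)) =
      Complex.I * (m i.1.1 : ℂ) * dt (V i.1.1) (cj (h i)) -
        ((n i.1.1 / len i.1.1 : ℝ) : ℂ) * dt (cr (kc i.1.1) (V i.1.1)) (cj (h i)) := by
    rw [dt3, dt3, dt3]
    unfold Kop
    ring
  rw [e, h1]
  unfold amp
  push_cast
  field_simp
  ring

theorem p8 (fr : Frame h) (w : C3) (i : Md) :
    dt (leray i.1.1 w) (cj (h i)) = dt w (cj (h i)) := by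
  have h1 := perp' fr i
  rw [dt3] at h1
  obtain ⟨r, hr⟩ : ∃ r, r = dt (kc i.1.1) w / ((nsq i.1.1 : ℝ) : ℂ) := ⟨_, rfl⟩
  have e : ∀ j, leray i.1.1 w j = w j - r * kc i.1.1 j := by
    intro j
    rw [hr]
    rfl
  rw [dt3, dt3, e, e, e]
  linear_combination -r * h1

theorem p9 (m n : Z3 → ℝ) (V : Coef) (k : Z3) (hd : dt (kc k) (V k) = 0) :
    dt (kc k) (Kop m n V k) = 0 := by
  rw [dt3] at hd ⊢
  unfold Kop
  rw [cr0, cr1, cr2]
  linear_combination (Complex.I * (m k : ℂ)) * hd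

theorem p10 (w : C3) (k : Z3) (hk : k ≠ 0) : dt (kc k) (leray k w) = 0 := by
  have h1 := kc_self k
  have h2 : ((nsq k : ℝ) : ℂ) ≠ 0 := by
    exact_mod_cast (nsq_pos hk).ne'
  have e : dt (kc k) (leray k w) = dt (kc k) w -
      dt (kc k) w / ((nsq k : ℝ) : ℂ) * dt (kc k) (kc k) := by
    obtain ⟨r, hr⟩ : ∃ r, r = dt (kc k) w / ((nsq k : ℝ) : ℂ) := ⟨_, rfl⟩
    have e : ∀ j, leray k w j = w j - r * kc k j := by
      intro j
      rw [hr]
      rfl
    rw [← hr, dt3, dt3, dt3, e, e, e]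
    ring
  rw [e, h1, div_mul_cancel₀ _ h2, sub_self]

theorem t_PH1 : S_PH1 := fun _ fr =>
  ⟨p1 fr, p2 fr, p3 fr, p4 fr, p5 fr, p6 fr, fun m n V i _ => p7 fr m n V i, p8 fr, p9,
    fun w k hk => p10 w k hk⟩

end Pool.Agent.Y419.EM.Ph1
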