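import Pool.Agent.Y6.M.Stm

set_option autoImplicit false

/-! # The modulus of the coefficients of the chain -/

open Set Filter Topology
open scoped ComplexConjugate

namespace Pool.Agent.Y419.EM.Vec2

open Pool.Agent.Y6.M

theorem sq_half {x y : ℂ} (hy : y = Complex.I * x) (h : x * conj x + y * conj y = 1) :
    ‖x‖ = 1 / √2 := by
  have h1 : ‖x‖ ^ 2 + ‖y‖ ^ 2 = 1 := by
    rw [Complex.mul_conj, Complex.mul_conj, Complex.normSq_eq_norm_sq,
      Complex.normSq_eq_norm_sq] at h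
    exact_mod_cast h
  have h2 : ‖y‖ = ‖x‖ := by rw [hy, norm_mul, Complex.norm_I, one_mul]
  rw [h2] at h1
  have h3 : (√2 * ‖x‖) ^ 2 = 1 := by
    rw [mul_pow, Real.sq_sqrt (by norm_num)]
    linarith
  have h4 : √2 * ‖x‖ = 1 := by
    have h5 : 0 ≤ √2 * ‖x‖ := by positivity
    nlinarith
  rw [eq_div_iff (by positivity)]
  linarith

/-- the three vectors, in cyclic coordinates -/
theorem core {α β ρ : ℝ} (hα : 0 < α) (hβ : 0 < β) (hρ : 0 < ρ) (hρ2 : ρ ^ 2 = α ^ 2 + β ^ 2)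
    {H0 H1 H2 K0 K1 K2 Q0 Q1 Q2 : ℂ} (a0 : (α : ℂ) * H0 = 0)
    (a2 : Complex.I * ((α : ℂ) * H1) = α * H2)
    (ua : H0 * conj H0 + H1 * conj H1 + H2 * conj H2 = 1)
    (b1 : (β : ℂ) * K1 = 0) (b0 : Complex.I * ((β : ℂ) * K2) = β * K0)
    (ub : K0 * conj K0 + K1 * conj K1 + K2 * conj K2 = 1)
    (q0 : Complex.I * ((β : ℂ) * Q2) = -(ρ : ℂ) * Q0)
    (q1 : Complex.I * (-((α : ℂ) * Q2)) = -(ρ : ℂ) * Q1)
    (uq : Q0 * conj Q0 + Q1 * conj Q1 + Q2 * conj Q2 = 1) :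
    ‖conj Q0 * (H1 * K2 - H2 * K1) + conj Q1 * (H2 * K0 - H0 * K2) +
      conj Q2 * (H0 * K1 - H1 * K0)‖ = 1 / (2 * √2) * ((α + β) / ρ - 1) := by
  have hαC : (α : ℂ) ≠ 0 := by exact_mod_cast hα.ne'
  have hβC : (β : ℂ) ≠ 0 := by exact_mod_cast hβ.ne'
  have hρC : (ρ : ℂ) ≠ 0 := by exact_mod_cast hρ.ne'
  have eH0 : H0 = 0 := (mul_eq_zero.1 a0).resolve_left hαC
  have eK1 : K1 = 0 := (mul_eq_zero.1 b1).resolve_left hβC
  have eH2 : H2 = Complex.I * H1 := by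
    apply mul_left_cancel₀ hαC
    rw [← a2]
    ring
  have eK0 : K0 = Complex.I * K2 := by
    apply mul_left_cancel₀ hβC
    rw [← b0]
    ring
  have eQ0 : Q0 = -(Complex.I * ((β / ρ : ℝ) : ℂ) * Q2) := by
    apply mul_left_cancel₀ hρC
    push_cast
    field_simp
    linear_combination q0
  have eQ1 : Q1 = Complex.I * ((α / ρ : ℝ) : ℂ) * Q2 := by
    apply mul_left_cancel₀ hρC
    push_cast
    field_simp
    linear_combination q1
  have nH : ‖H1‖ = 1 / √2 := by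
    refine sq_half eH2 ?_
    rw [eH0, zero_mul, zero_add] at ua
    exact ua
  have nK : ‖K2‖ = 1 / √2 := by
    refine sq_half eK0 ?_
    rw [eK1, zero_mul, add_zero, add_comm] at ub
    exact ub
  have nQ : ‖Q2‖ = 1 / √2 := by
    have h1 : ‖Q0‖ ^ 2 + ‖Q1‖ ^ 2 + ‖Q2‖ ^ 2 = 1 := by
      rw [Complex.mul_conj, Complex.mul_conj, Complex.mul_conj, Complex.normSq_eq_norm_sq,
        Complex.normSq_eq_norm_sq, Complex.normSq_eq_norm_sq] at uq
      exact_mod_cast uq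
    have h2 : ‖Q0‖ = β / ρ * ‖Q2‖ := by
      rw [eQ0, norm_neg, norm_mul, norm_mul, Complex.norm_I, one_mul, Complex.norm_real,
        Real.norm_of_nonneg (by positivity)]
    have h3 : ‖Q1‖ = α / ρ * ‖Q2‖ := by
      rw [eQ1, norm_mul, norm_mul, Complex.norm_I, one_mul, Complex.norm_real,
        Real.norm_of_nonneg (by positivity)]
    rw [h2, h3] at h1
    have h4 : (β / ρ) ^ 2 + (α / ρ) ^ 2 = 1 := by
      rw [div_pow, div_pow, ← add_div, div_eq_one_iff_eq (by positivity), hρ2]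
      ring
    have h5 : (√2 * ‖Q2‖) ^ 2 = 1 := by
      rw [mul_pow, Real.sq_sqrt (by norm_num)]
      linear_combination h1 - ‖Q2‖ ^ 2 * h4
    have h6 : √2 * ‖Q2‖ = 1 := by
      have h5 : 0 ≤ √2 * ‖Q2‖ := by positivity
      nlinarith
    rw [eq_div_iff (by positivity)]
    linarith
  have hc0 : conj Q0 = Complex.I * ((β / ρ : ℝ) : ℂ) * conj Q2 := by
    rw [eQ0, map_neg, map_mul, map_mul, Complex.conj_I, Complex.conj_ofReal]
    ring
  have hc1 : conj Q1 = -(Complex.I * ((α / ρ : ℝ) : ℂ) * conj Q2) := by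
    rw [eQ1, map_mul, map_mul, Complex.conj_I, Complex.conj_ofReal]
    ring
  have e : conj Q0 * (H1 * K2 - H2 * K1) + conj Q1 * (H2 * K0 - H0 * K2) +
      conj Q2 * (H0 * K1 - H1 * K0) =
      Complex.I * (H1 * K2 * conj Q2) * (((α + β) / ρ - 1 : ℝ) : ℂ) := by
    rw [hc0, hc1, eH0, eK1, eH2, eK0]
    have hI : Complex.I * Complex.I = -1 := Complex.I_mul_I
    push_cast
    field_simp
    linear_combination (-(Complex.I * (α : ℂ) * H1 * K2 * conj Q2)) * hI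
  rw [e, norm_mul, norm_mul, norm_mul, norm_mul, Complex.norm_I, one_mul, Complex.norm_conj, nH,
    nK, nQ, Complex.norm_real]
  have h7 : 0 ≤ (α + β) / ρ - 1 := by
    rw [sub_nonneg, le_div_iff₀ hρ, one_mul]
    nlinarith
  rw [Real.norm_of_nonneg h7]
  have h8 : (1 : ℝ) / √2 * (1 / √2) = 1 / 2 := by
    rw [div_mul_div_comm, one_mul, Real.mul_self_sqrt (by norm_num)]
  rw [h8, div_mul_div_comm, one_mul]

theorem al_posR (n : ℕ) : 0 < αM n := by
  unfold αM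
  exact_mod_cast al_pos n

theorem rho_pos (n : ℕ) : 0 < ρM n := by
  unfold ρM
  have := al_posR n
  have := al_posR (n + 1)
  exact Real.sqrt_pos.2 (by positivity)

theorem rho_sq (n : ℕ) : ρM n ^ 2 = αM n ^ 2 + αM (n + 1) ^ 2 := by
  unfold ρM
  exact Real.sq_sqrt (by positivity)

theorem kx_apply (n : ℕ) (j : Fin 3) : kx n j = if j.1 = n % 3 then (al n : ℤ) else 0 := rfl

theorem nsq_kx (n : ℕ) : nsq (kx n) = (al n : ℤ) ^ 2 := by
  unfold nsq
  rw [Fin.sum_univ_three, kx_apply, kx_apply, kx_apply]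
  have h : n % 3 = 0 ∨ n % 3 = 1 ∨ n % 3 = 2 := by omega
  rcases h with h | h | h <;> rw [h] <;> simp

theorem nsq_ky (n : ℕ) : nsq (kx n + kx (n + 1)) = (al n : ℤ) ^ 2 + (al (n + 1) : ℤ) ^ 2 := by
  unfold nsq
  rw [Fin.sum_univ_three]
  simp only [Pi.add_apply, kx_apply]
  have h : (n % 3 = 0 ∧ (n + 1) % 3 = 1) ∨ (n % 3 = 1 ∧ (n + 1) % 3 = 2) ∨
    (n % 3 = 2 ∧ (n + 1) % 3 = 0) := by omega
  rcases h with ⟨h, h'⟩ | ⟨h, h'⟩ | ⟨h, h'⟩ <;> rw [h, h'] <;> simp [add_comm]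

theorem len_kx (n : ℕ) : len (kx n) = αM n := by
  unfold len
  rw [nsq_kx]
  have : (((al n : ℤ) ^ 2 : ℤ) : ℝ) = αM n ^ 2 := by
    unfold αM
    push_cast
    rfl
  rw [this, Real.sqrt_sq (al_posR n).le]

theorem len_ky (n : ℕ) : len (kx n + kx (n + 1)) = ρM n := by
  unfold len ρM
  rw [nsq_ky]
  congr 1
  unfold αM
  push_cast
  rfl

theorem t_VEC2 : S_VEC2 := by
  intro h fr n
  have hα := al_posR n
  have hβ := al_posR (n + 1)
  have hρ := rho_pos n
  have hρ2 := rho_sq n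
  obtain ⟨α, hαe⟩ : ∃ α, α = αM n := ⟨_, rfl⟩
  obtain ⟨β, hβe⟩ : ∃ β, β = αM (n + 1) := ⟨_, rfl⟩
  obtain ⟨ρ, hρe⟩ : ∃ ρ, ρ = ρM n := ⟨_, rfl⟩
  -- the three vectors
  have eH := fr.eig (Xm n)
  have eK := fr.eig (Xm (n + 1))
  have eQ := fr.eig (Ym n)
  have uH := fr.unit (Xm n)
  have uK := fr.unit (Xm (n + 1))
  have uQ := fr.unit (Ym n)
  have l1 : hs (Xm n).2 * len (Xm n).1.1 = α := by
    show (1 : ℝ) * len (kx n) = α
    rw [one_mul, len_kx, hαe]
  have l2 : hs (Xm (n + 1)).2 * len (Xm (n + 1)).1.1 = β := by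
    show (1 : ℝ) * len (kx (n + 1)) = β
    rw [one_mul, len_kx, hβe]
  have l3 : hs (Ym n).2 * len (Ym n).1.1 = -ρ := by
    show (-1 : ℝ) * len (kx n + kx (n + 1)) = -ρ
    rw [len_ky, hρe]
    ring
  rw [l1] at eH
  rw [l2] at eK
  rw [l3] at eQ
  obtain ⟨H, hH⟩ : ∃ H, H = h (Xm n) := ⟨_, rfl⟩
  obtain ⟨K, hK⟩ : ∃ K, K = h (Xm (n + 1)) := ⟨_, rfl⟩
  obtain ⟨Q, hQ⟩ : ∃ Q, Q = h (Ym n) := ⟨_, rfl⟩
  have ekH : kc (Xm n).1.1 = fun j : Fin 3 => if j.1 = n % 3 then (α : ℂ) else 0 := by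
    funext j
    show ((kx n j : ℤ) : ℂ) = _
    rw [kx_apply, hαe]
    unfold αM
    split_ifs <;> simp
  have ekK : kc (Xm (n + 1)).1.1 = fun j : Fin 3 => if j.1 = (n + 1) % 3 then (β : ℂ) else 0 := by
    funext j
    show ((kx (n + 1) j : ℤ) : ℂ) = _
    rw [kx_apply, hβe]
    unfold αM
    split_ifs <;> simp
  have ekQ : kc (Ym n).1.1 = fun j : Fin 3 => (if j.1 = n % 3 then (α : ℂ) else 0) +
      if j.1 = (n + 1) % 3 then (β : ℂ) else 0 := by
    funext j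
    show (((kx n + kx (n + 1)) j : ℤ) : ℂ) = _
    rw [Pi.add_apply, kx_apply, kx_apply, hαe, hβe]
    unfold αM
    split_ifs <;> simp
  have hG : GM h n = 2 * Real.pi * (conj (Q 0) * (H 1 * K 2 - H 2 * K 1) +
      conj (Q 1) * (H 2 * K 0 - H 0 * K 2) + conj (Q 2) * (H 0 * K 1 - H 1 * K 0)) := by
    unfold GM dt
    rw [Fin.sum_univ_three, hH, hK, hQ]
    rfl
  have hfin : ‖conj (Q 0) * (H 1 * K 2 - H 2 * K 1) +
      conj (Q 1) * (H 2 * K 0 - H 0 * K 2) + conj (Q 2) * (H 0 * K 1 - H 1 * K 0)‖ =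
      1 / (2 * √2) * ((α + β) / ρ - 1) := by
    rw [← hαe] at hα hρ2
    rw [← hβe] at hβ hρ2
    rw [← hρe] at hρ hρ2
    rw [ekH, ← hH] at eH
    rw [ekK, ← hK] at eK
    rw [ekQ, ← hQ] at eQ
    rw [← hH] at uH
    rw [← hK] at uK
    rw [← hQ] at uQ
    unfold dt cj at uH uK uQ
    rw [Fin.sum_univ_three] at uH uK uQ
    have hcase : (n % 3 = 0 ∧ (n + 1) % 3 = 1) ∨ (n % 3 = 1 ∧ (n + 1) % 3 = 2) ∨
      (n % 3 = 2 ∧ (n + 1) % 3 = 0) := by omega
    have x0 := eH 0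
    have x1 := eH 1
    have x2 := eH 2
    have y0 := eK 0
    have y1 := eK 1
    have y2 := eK 2
    have z0 := eQ 0
    have z1 := eQ 1
    have z2 := eQ 2
    have c0 : ∀ a b : C3, cr a b 0 = a 1 * b 2 - a 2 * b 1 := fun _ _ => rfl
    have c1 : ∀ a b : C3, cr a b 1 = a 2 * b 0 - a 0 * b 2 := fun _ _ => rfl
    have c2 : ∀ a b : C3, cr a b 2 = a 0 * b 1 - a 1 * b 0 := fun _ _ => rfl
    rw [c0] at x0 y0 z0
    rw [c1] at x1 y1 z1
    rw [c2] at x2 y2 z2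
    have f0 : ((0 : Fin 3) : ℕ) = 0 := rfl
    have f1 : ((1 : Fin 3) : ℕ) = 1 := rfl
    have f2 : ((2 : Fin 3) : ℕ) = 2 := rfl
    simp only [f0, f1, f2] at x0 x1 x2 y0 y1 y2 z0 z1 z2
    have e01 : ((0 : ℕ) = 1) = False := by simp
    have e02 : ((0 : ℕ) = 2) = False := by simp
    have e10 : ((1 : ℕ) = 0) = False := by simp
    have e12 : ((1 : ℕ) = 2) = False := by simp
    have e20 : ((2 : ℕ) = 0) = False := by simp
    have e21 : ((2 : ℕ) = 1) = False := by simp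
    rcases hcase with ⟨h1, h2⟩ | ⟨h1, h2⟩ | ⟨h1, h2⟩
    · rw [h1] at x0 x1 x2
      rw [h2] at y0 y1 y2
      rw [h1, h2] at z0 z1 z2
      simp only [if_true, if_false, e01, e02, e10, e12, e20, e21, Complex.ofReal_neg]
        at x0 x1 x2 y0 y1 y2 z0 z1 z2
      exact core hα hβ hρ hρ2 (H0 := H 0) (H1 := H 1) (H2 := H 2) (K0 := K 0) (K1 := K 1)
        (K2 := K 2) (Q0 := Q 0) (Q1 := Q 1) (Q2 := Q 2) (by linear_combination -x0)
        (by linear_combination x2) (by linear_combination uH) (by linear_combination -y1)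
        (by linear_combination y0) (by linear_combination uK) (by linear_combination z0)
        (by linear_combination z1) (by linear_combination uQ)
    · rw [h1] at x0 x1 x2
      rw [h2] at y0 y1 y2
      rw [h1, h2] at z0 z1 z2
      simp only [if_true, if_false, e01, e02, e10, e12, e20, e21, Complex.ofReal_neg]
        at x0 x1 x2 y0 y1 y2 z0 z1 z2
      rw [← core hα hβ hρ hρ2 (H0 := H 1) (H1 := H 2) (H2 := H 0) (K0 := K 1) (K1 := K 2)
        (K2 := K 0) (Q0 := Q 1) (Q1 := Q 2) (Q2 := Q 0) (by linear_combination -x1)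
        (by linear_combination x0) (by linear_combination uH) (by linear_combination -y2)
        (by linear_combination y1) (by linear_combination uK) (by linear_combination z1)
        (by linear_combination z2) (by linear_combination uQ)]
      congr 1
      ring
    · rw [h1] at x0 x1 x2
      rw [h2] at y0 y1 y2
      rw [h1, h2] at z0 z1 z2
      simp only [if_true, if_false, e01, e02, e10, e12, e20, e21, Complex.ofReal_neg]
        at x0 x1 x2 y0 y1 y2 z0 z1 z2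
      rw [← core hα hβ hρ hρ2 (H0 := H 2) (H1 := H 0) (H2 := H 1) (K0 := K 2) (K1 := K 0)
        (K2 := K 1) (Q0 := Q 2) (Q1 := Q 0) (Q2 := Q 1) (by linear_combination -x2)
        (by linear_combination x1) (by linear_combination uH) (by linear_combination -y0)
        (by linear_combination y2) (by linear_combination uK) (by linear_combination z2)
        (by linear_combination z0) (by linear_combination uQ)]
      congr 1
      ring
  rw [hG, norm_mul, hfin, ← hαe, ← hβe, ← hρe]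
  have e2 : ‖(2 * Real.pi : ℂ)‖ = 2 * Real.pi := by
    have : (2 * Real.pi : ℂ) = ((2 * Real.pi : ℝ) : ℂ) := by push_cast; rfl
    rw [this, Complex.norm_real, Real.norm_of_nonneg (by positivity)]
  rw [e2]
  ring

end Pool.Agent.Y419.EM.Vec2
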